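import Pool.Agent.helper64.EWDefs
import Pool.Agent.helper88.EW.Sub

/-!
# No local ept-reduction from `p-CLIQUE` to `p-MC(Σ₁)`

Every reduction from the `k`-clique problem on graphs with `n` vertices to model checking of
`Σ₁`-sentences over vocabularies of bounded arity, such that every bit of the output is an arbitrary
function of at most `n^(2-η)` entries of the adjacency matrix, has to put out sentences of length
`Ω(k²)`, for all `n` and `k` with `k ≤ O(log n)`. No assumption is made on the complexity or the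
uniformity of the reduction. In particular no ept-reduction from `p-CLIQUE` to `p-MC(Σ₁)` is local.
-/

open Finset FirstOrder

set_option linter.style.haveILetI false

namespace Pool.Agent.Results.MP_2b48c2_lc.LocalReductions

open Pool.Agent.helper64 Pool.Agent.helper88.EW

/-- `Reads q P`: the property `P` of graphs on `n` vertices reads at most `q` pairs of vertices, i.e.
there is a fixed set of at most `q` pairs such that the adjacency of these pairs determines whether
`P` holds. -/
def Reads {n : ℕ} (q : ℕ) (P : SimpleGraph (Fin n) → Prop) : Prop :=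
  ∃ D : Finset (Sym2 (Fin n)), D.card ≤ q ∧ ∀ G G' : SimpleGraph (Fin n),
    (∀ u v, s(u, v) ∈ D → (G.Adj u v ↔ G'.Adj u v)) → (P G ↔ P G')

/-- A reduction from the clique problem (is there a clique of `k` vertices in a graph on `n`
vertices?) to the model checking problem for `Σ₁`, such that every bit of the output reads at most
`q` pairs. Nothing else is assumed about the map `G ↦ (A(G), φ(G))`: it need not be computable. -/
structure LocalReduction (n k r q M ℓ : ℕ) where
  /-- A relational vocabulary with at most `M` symbols, all of arity at most `r`. (If the vocabulary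
  of the structure `A(G)` depends on `G`, take all symbols which may occur, and interpret the
  symbols which are not in use by the empty relation.) -/
  L : FirstOrder.Language.{0, 0}
  relational : L.IsRelational
  symbols_finite : Finite (Σ a : ℕ, L.Relations a)
  symbols_size : Nat.card (Σ a : ℕ, L.Relations a) ≤ M
  arity_le : ∀ a : ℕ, L.Relations a → a ≤ r
  /-- The universes are subsets of `{0, …, N-1}`. -/
  N : ℕ
  univ_size : N ≤ M
  /-- The universe of the structure `A(G)`. -/
  univ : SimpleGraph (Fin n) → Set (Fin N)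
  /-- The relations of `A(G)`. -/
  rel : SimpleGraph (Fin n) → ∀ a : ℕ, L.Relations a → (Fin a → Fin N) → Prop
  /-- The sentence `φ(G)` put out by the reduction. -/
  sent : SimpleGraph (Fin n) → L.Sentence
  /-- A word of length `ℓ` over the alphabet `{0, …, M-1}` which encodes the sentence `φ(G)`. -/
  word : SimpleGraph (Fin n) → Fin ℓ → Fin M
  /-- The word determines the sentence. -/
  sent_of_word : ∀ G G', word G = word G' → sent G = sent G'
  /-- The sentence is a `Σ₁`-sentence ... -/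
  existential : ∀ G, (sent G).IsExistential
  /-- ... of length at most `ℓ`. -/
  len_le : ∀ G, len (sent G) ≤ ℓ
  /-- All parts of the output read at most `q` pairs. -/
  univ_reads : ∀ x, Reads q (fun G => x ∈ univ G)
  rel_reads : ∀ (a : ℕ) (R : L.Relations a) (t : Fin a → Fin N), Reads q (fun G => rel G a R t)
  word_reads : ∀ i b, Reads q (fun G => word G i = b)
  /-- Correctness of the reduction: `G` has a clique of `k` vertices iff `A(G) ⊨ φ(G)`. -/
  correct : ∀ G : SimpleGraph (Fin n), ¬ G.CliqueFree k ↔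
    @FirstOrder.Language.Sentence.Realize L (univ G) (mkStr relational (univ G) (rel G)) (sent G)

section Preservation

variable {L : FirstOrder.Language.{0, 0}} (hL : L.IsRelational) {N : ℕ}

/-- The variable which is the given term (the vocabulary is relational). -/
def tvar {n : ℕ} : L.Term (Empty ⊕ Fin n) → Fin n
  | .var (Sum.inl e) => e.elim
  | .var (Sum.inr i) => i
  | .func f _ => ((hL _).false f).elim

theorem realize_tvar {n : ℕ} {M : Type} [L.Structure M] (v : Empty → M) (xs : Fin n → M)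
    (t : L.Term (Empty ⊕ Fin n)) : t.realize (Sum.elim v xs) = xs (tvar hL t) := by
  match t with
  | .var (Sum.inl e) => exact e.elim
  | .var (Sum.inr i) => rfl
  | .func f _ => exact ((hL _).false f).elim

/-- Satisfaction in the structure given by `D` and `h`. -/
def Sat (D : Set (Fin N)) (h : ∀ a : ℕ, L.Relations a → (Fin a → Fin N) → Prop) {n : ℕ}
    (φ : L.BoundedFormula Empty n) (xs : Fin n → D) : Prop :=
  @FirstOrder.Language.BoundedFormula.Realize L D (mkStr hL D h) Empty n φ default xs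

/-- The facts about a structure: atomic facts and membership in the universe. -/
abbrev Fact (L : FirstOrder.Language.{0, 0}) (N : ℕ) : Type :=
  (Σ a : ℕ, L.Relations a × (Fin a → Fin N)) ⊕ Fin N

/-- Two structures agree on a fact. -/
def Agree (D D' : Set (Fin N)) (h h' : ∀ a : ℕ, L.Relations a → (Fin a → Fin N) → Prop) :
    Fact L N → Prop
  | Sum.inl ⟨a, R, t⟩ => (h a R t ↔ h' a R t)
  | Sum.inr x => (x ∈ D ↔ x ∈ D')

/-- The number of symbols used for a fact. -/
def cost : Fact L N → ℕ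
  | Sum.inl ⟨a, _, _⟩ => a + 1
  | Sum.inr _ => 1

variable {E : Type} (cert : Fact L N → Finset E) (hcert : ∀ f, (cert f).card ≤ cost f)

include hcert in
theorem qf_preserved (D : Set (Fin N)) (h : ∀ a : ℕ, L.Relations a → (Fin a → Fin N) → Prop)
    {n : ℕ} (φ : L.BoundedFormula Empty n) (hφ : φ.IsQF) (xs : Fin n → D) :
    ∃ T : Finset E, T.card ≤ len φ ∧
      ∀ (D' : Set (Fin N)) (h' : ∀ a : ℕ, L.Relations a → (Fin a → Fin N) → Prop)
        (xs' : Fin n → D'), (∀ i, (xs' i : Fin N) = xs i) →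
        (∀ f, cert f ⊆ T → Agree D D' h h' f) →
        (Sat hL D h φ xs ↔ Sat hL D' h' φ xs') := by
  classical
  induction hφ with
  | falsum =>
    refine ⟨∅, by simp, ?_⟩
    intro D' h' xs' _ _
    exact Iff.rfl
  | @of_isAtomic φ hat =>
    cases hat with
    | equal t₁ t₂ =>
      refine ⟨∅, by simp, ?_⟩
      intro D' h' xs' hxs _
      have e1 : Sat hL D h (t₁.bdEqual t₂) xs ↔ xs (tvar hL t₁) = xs (tvar hL t₂) := by
        letI := mkStr hL D h
        show t₁.realize (Sum.elim default xs) = t₂.realize (Sum.elim default xs) ↔ _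
        rw [realize_tvar hL, realize_tvar hL]
      have e2 : Sat hL D' h' (t₁.bdEqual t₂) xs' ↔ xs' (tvar hL t₁) = xs' (tvar hL t₂) := by
        letI := mkStr hL D' h'
        show t₁.realize (Sum.elim default xs') = t₂.realize (Sum.elim default xs') ↔ _
        rw [realize_tvar hL, realize_tvar hL]
      rw [e1, e2, Subtype.ext_iff, Subtype.ext_iff, hxs, hxs]
    | @rel a R ts =>
      refine ⟨cert (Sum.inl ⟨a, R, fun i => (xs (tvar hL (ts i)) : Fin N)⟩), ?_, ?_⟩
      · exact hcert _
      · intro D' h' xs' hxs hagree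
        have e1 : Sat hL D h (R.boundedFormula ts) xs ↔
            h a R (fun i => (xs (tvar hL (ts i)) : Fin N)) := by
          letI := mkStr hL D h
          have : (fun i => (ts i).realize (Sum.elim default xs)) =
              fun i => xs (tvar hL (ts i)) := by
            funext i
            exact realize_tvar hL _ _ _
          show h a R (fun i => ((fun i => (ts i).realize (Sum.elim default xs)) i : D)) ↔ _
          rw [this]
        have e2 : Sat hL D' h' (R.boundedFormula ts) xs' ↔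
            h' a R (fun i => (xs' (tvar hL (ts i)) : Fin N)) := by
          letI := mkStr hL D' h'
          have : (fun i => (ts i).realize (Sum.elim default xs')) =
              fun i => xs' (tvar hL (ts i)) := by
            funext i
            exact realize_tvar hL _ _ _
          show h' a R (fun i => ((fun i => (ts i).realize (Sum.elim default xs')) i : D')) ↔ _
          rw [this]
        rw [e1, e2]
        have h1 := hagree _ (Finset.Subset.refl _)
        have h2 : (fun i => (xs' (tvar hL (ts i)) : Fin N)) =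
            fun i => (xs (tvar hL (ts i)) : Fin N) := by
          funext i; exact hxs _
        rw [h2]
        exact h1
  | @imp φ ψ _ _ ih1 ih2 =>
    obtain ⟨T1, hT1, h1⟩ := ih1
    obtain ⟨T2, hT2, h2⟩ := ih2
    refine ⟨T1 ∪ T2, ?_, ?_⟩
    · have := Finset.card_union_le T1 T2
      show (T1 ∪ T2).card ≤ len φ + len ψ + 1
      omega
    · intro D' h' xs' hxs hagree
      have i1 := h1 D' h' xs' hxs
        (fun f hf => hagree f (hf.trans Finset.subset_union_left))
      have i2 := h2 D' h' xs' hxs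
        (fun f hf => hagree f (hf.trans Finset.subset_union_right))
      show (Sat hL D h φ xs → Sat hL D h ψ xs) ↔ (Sat hL D' h' φ xs' → Sat hL D' h' ψ xs')
      rw [i1, i2]

include hcert in
theorem ex_preserved (D : Set (Fin N)) (h : ∀ a : ℕ, L.Relations a → (Fin a → Fin N) → Prop)
    {n : ℕ} (φ : L.BoundedFormula Empty n) (hφ : φ.IsExistential) :
    ∀ xs : Fin n → D, Sat hL D h φ xs →
    ∃ T : Finset E, T.card ≤ len φ ∧
      ∀ (D' : Set (Fin N)) (h' : ∀ a : ℕ, L.Relations a → (Fin a → Fin N) → Prop)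
        (xs' : Fin n → D'), (∀ i, (xs' i : Fin N) = xs i) →
        (∀ f, cert f ⊆ T → Agree D D' h h' f) → Sat hL D' h' φ xs' := by
  classical
  induction hφ with
  | of_isQF hqf =>
    intro xs hsat
    obtain ⟨T, hT, hT'⟩ := qf_preserved hL cert hcert D h _ hqf xs
    exact ⟨T, hT, fun D' h' xs' hxs hagree => (hT' D' h' xs' hxs hagree).1 hsat⟩
  | @ex n φ _ ih =>
    intro xs hsat
    have hsat' : ∃ x : D, Sat hL D h φ (Fin.snoc xs x) :=
      (@FirstOrder.Language.BoundedFormula.realize_ex L D (mkStr hL D h) Empty n φ default xs).1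
        hsat
    obtain ⟨x, hx⟩ := hsat'
    obtain ⟨T, hT, hT'⟩ := ih (Fin.snoc xs x) hx
    refine ⟨cert (Sum.inr (x : Fin N)) ∪ T, ?_, ?_⟩
    · have h1 := Finset.card_union_le (cert (Sum.inr (x : Fin N))) T
      have h2 : len φ.ex = len φ + 1 + 1 + 1 + 1 + 1 := rfl
      have h3 : (cert (Sum.inr (x : Fin N))).card ≤ 1 := hcert _
      omega
    · intro D' h' xs' hxs hagree
      have hxD' : (x : Fin N) ∈ D' :=
        (hagree (Sum.inr (x : Fin N)) Finset.subset_union_left).1 x.2
      refine (@FirstOrder.Language.BoundedFormula.realize_ex L D' (mkStr hL D' h') Empty n φ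
        default xs').2 ⟨⟨x, hxD'⟩, ?_⟩
      refine hT' D' h' (Fin.snoc xs' ⟨x, hxD'⟩) ?_
        (fun f hf => hagree f (hf.trans Finset.subset_union_right))
      intro i
      refine Fin.lastCases ?_ (fun j => ?_) i
      · simp
      · simp [hxs]

end Preservation

variable {n k r q M ℓ : ℕ}

/-- The symbols of the vocabulary. -/
abbrev Sy (ρ : LocalReduction n k r q M ℓ) : Type := Σ a : ℕ, ρ.L.Relations a

/-- The bits of the structure. -/
abbrev Elem (ρ : LocalReduction n k r q M ℓ) : Type :=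
  (Σ σ : Sy ρ, (Fin σ.1 → Fin ρ.N)) ⊕ Fin ρ.N

/-- The bit which decides a fact. -/
def certOf (ρ : LocalReduction n k r q M ℓ) : Fact ρ.L ρ.N → Elem ρ
  | Sum.inl ⟨a, R, t⟩ => Sum.inl ⟨⟨a, R⟩, t⟩
  | Sum.inr x => Sum.inr x

/-- The truth of a bit of the output. -/
def Holds (ρ : LocalReduction n k r q M ℓ) (G : SimpleGraph (Fin n)) :
    Elem ρ ⊕ (Fin ℓ × Fin M) → Prop
  | Sum.inl (Sum.inl ⟨σ, t⟩) => ρ.rel G σ.1 σ.2 t
  | Sum.inl (Sum.inr x) => x ∈ ρ.univ G
  | Sum.inr (i, b) => ρ.word G i = b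

theorem holds_reads (ρ : LocalReduction n k r q M ℓ) (e : Elem ρ ⊕ (Fin ℓ × Fin M)) :
    Reads q (fun G => Holds ρ G e) := by
  match e with
  | Sum.inl (Sum.inl ⟨σ, t⟩) => exact ρ.rel_reads σ.1 σ.2 t
  | Sum.inl (Sum.inr x) => exact ρ.univ_reads x
  | Sum.inr (i, b) => exact ρ.word_reads i b

theorem M_pos (ρ : LocalReduction n k r q M ℓ) : 0 < M := by
  have h1 : 1 ≤ ℓ := by
    refine le_trans ?_ (ρ.len_le ⊥)
    generalize ρ.sent ⊥ = φ
    change 1 ≤ len (φ : ρ.L.BoundedFormula Empty 0)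
    cases φ <;> simp [len]
  exact Fin.pos (ρ.word ⊥ ⟨0, h1⟩)

/-- The quantitative form. -/
theorem main (r c e : ℕ) (he : 1 ≤ e) : ∃ s K₀ : ℕ, ∀ n k : ℕ, K₀ ≤ k → k ≤ c * Nat.log 2 n →
    ∀ q M ℓ : ℕ, q ^ e * n ≤ n ^ (2 * e) → M ≤ n ^ c →
    Nonempty (LocalReduction n k r q M ℓ) → k ^ 2 ≤ s * ℓ := by
  set c' := 2 * c * (r + 3) + 3 with hc'
  obtain ⟨C, K1, hs⟩ := local_planted e c' he
  refine ⟨2 * C + 1, K1 + 2, ?_⟩
  intro n k hk hkL q M ℓ hq hM ⟨ρ⟩
  classical
  by_contra hcon
  push Not at hcon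
  set L := Nat.log 2 n with hLdef
  have hMpos : 0 < M := M_pos ρ
  have hLpos : 1 ≤ L := by
    rcases Nat.eq_zero_or_pos L with h | h
    · rw [h] at hkL; omega
    · exact h
  have hℓk : ℓ ≤ k ^ 2 := by nlinarith
  have hℓ : ℓ ≤ 2 ^ (2 * c * L) := by
    have h2 : k ≤ 2 ^ (c * L) := hkL.trans Nat.lt_two_pow_self.le
    calc ℓ ≤ k ^ 2 := hℓk
      _ ≤ (2 ^ (c * L)) ^ 2 := Nat.pow_le_pow_left h2 2
      _ = 2 ^ (2 * c * L) := by rw [← pow_mul]; congr 1; ring
  have hn : n ≤ 2 ^ (2 * L) := by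
    have h1 : n < 2 ^ (L + 1) := Nat.lt_pow_succ_log_self (by norm_num) n
    exact h1.le.trans (Nat.pow_le_pow_right (by norm_num) (by omega))
  have hM2 : M ≤ 2 ^ (2 * c * L) := by
    calc M ≤ n ^ c := hM
      _ ≤ (2 ^ (2 * L)) ^ c := Nat.pow_le_pow_left hn c
      _ = 2 ^ (2 * c * L) := by rw [← pow_mul]; congr 1; ring
  have := ρ.symbols_finite
  have : Fintype (Sy ρ) := Fintype.ofFinite _
  have hS : Fintype.card (Sy ρ) ≤ M := by
    rw [← Nat.card_eq_fintype_card]; exact ρ.symbols_size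
  -- the family of all bits
  let κ := Elem ρ ⊕ (Fin ℓ × Fin M)
  have hκ : Fintype.card κ ≤ 2 ^ (c' * L) := by
    have h1 : Fintype.card κ = (∑ σ : Sy ρ, ρ.N ^ σ.1) + ρ.N + ℓ * M := by
      simp only [κ, Elem, Fintype.card_sum, Fintype.card_prod, Fintype.card_fin,
        Fintype.card_sigma, Fintype.card_fun]
    have h2 : ∑ σ : Sy ρ, ρ.N ^ σ.1 ≤ M * M ^ r := by
      calc ∑ σ : Sy ρ, ρ.N ^ σ.1 ≤ ∑ σ : Sy ρ, M ^ r := by
            refine Finset.sum_le_sum fun σ _ => ?_
            exact (Nat.pow_le_pow_left ρ.univ_size _).trans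
              (Nat.pow_le_pow_right hMpos (ρ.arity_le σ.1 σ.2))
        _ = Fintype.card (Sy ρ) * M ^ r := by
            rw [Finset.sum_const, Finset.card_univ, smul_eq_mul]
        _ ≤ M * M ^ r := Nat.mul_le_mul_right _ hS
    set X := 2 ^ (2 * c * L) with hX
    have hX1 : 1 ≤ X := Nat.one_le_two_pow
    have hXr : 1 ≤ X ^ r := Nat.one_le_pow _ _ hX1
    have h3 : M * M ^ r ≤ X ^ (r + 2) := by
      calc M * M ^ r ≤ X * X ^ r := Nat.mul_le_mul hM2 (Nat.pow_le_pow_left hM2 r)
        _ = X ^ (r + 1) := by ring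
        _ ≤ X ^ (r + 2) := Nat.pow_le_pow_right hX1 (by omega)
    have h4 : ρ.N ≤ X ^ (r + 2) := by
      calc ρ.N ≤ X := ρ.univ_size.trans hM2
        _ = X ^ 1 := (pow_one X).symm
        _ ≤ X ^ (r + 2) := Nat.pow_le_pow_right hX1 (by omega)
    have h5 : ℓ * M ≤ X ^ (r + 2) := by
      calc ℓ * M ≤ X * X := Nat.mul_le_mul hℓ hM2
        _ = X ^ 2 := by ring
        _ ≤ X ^ (r + 2) := Nat.pow_le_pow_right hX1 (by omega)
    have h6 : (8:ℕ) ≤ 2 ^ (3 * L) := by
      calc 8 = 2 ^ 3 := by norm_num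
        _ ≤ 2 ^ (3 * L) := Nat.pow_le_pow_right (by norm_num) (by omega)
    calc Fintype.card κ ≤ X ^ (r + 2) + X ^ (r + 2) + X ^ (r + 2) := by
          rw [h1]; exact Nat.add_le_add (Nat.add_le_add (h2.trans h3) h4) h5
      _ ≤ 8 * X ^ (r + 2) := by omega
      _ ≤ 2 ^ (3 * L) * X ^ (r + 3) :=
          Nat.mul_le_mul h6 (Nat.pow_le_pow_right hX1 (by omega))
      _ = 2 ^ (c' * L) := by
          rw [hX, ← pow_mul, ← pow_add]; congr 1; rw [hc']; ring
  have hkL' : k ≤ c' * L := by
    refine hkL.trans (Nat.mul_le_mul_right L ?_)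
    rw [hc']
    nlinarith
  choose D hD1 hD2 using holds_reads ρ
  obtain ⟨G, hG, hG'⟩ := hs n k (by omega) hkL' κ hκ (fun j G => Holds ρ G j) D
    (fun j => le_trans (Nat.mul_le_mul_right n (Nat.pow_le_pow_left (hD1 j) e)) hq) hD2
  -- the sentence is true for G
  have hsat : Sat ρ.relational (ρ.univ G) (ρ.rel G) (ρ.sent G) default := (ρ.correct G).1 hG
  obtain ⟨T, hT, hT'⟩ := ex_preserved ρ.relational (fun f => {certOf ρ f}) (by
      intro f
      rw [Finset.card_singleton]
      match f with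
      | Sum.inl ⟨a, R, t⟩ => exact Nat.le_add_left 1 a
      | Sum.inr x => exact le_rfl) (ρ.univ G)
    (ρ.rel G) (ρ.sent G) (ρ.existential G) default hsat
  -- all bits which are used
  set T' : Finset κ := T.image Sum.inl ∪
    (Finset.univ : Finset (Fin ℓ)).image (fun i => Sum.inr (i, ρ.word G i)) with hT'def
  have hT'card : T'.card ≤ 2 * ℓ := by
    have h1 := Finset.card_union_le (T.image Sum.inl)
      ((Finset.univ : Finset (Fin ℓ)).image (fun i => (Sum.inr (i, ρ.word G i) : κ)))
    have h2 : (T.image (Sum.inl : Elem ρ → κ)).card ≤ T.card := Finset.card_image_le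
    have h3 : ((Finset.univ : Finset (Fin ℓ)).image
        (fun i => (Sum.inr (i, ρ.word G i) : κ))).card ≤ ℓ := by
      refine Finset.card_image_le.trans ?_
      rw [Finset.card_univ, Fintype.card_fin]
    have h4 := ρ.len_le G
    have h5 : T'.card ≤ (T.image (Sum.inl : Elem ρ → κ)).card +
      ((Finset.univ : Finset (Fin ℓ)).image (fun i => (Sum.inr (i, ρ.word G i) : κ))).card := h1
    omega
  obtain ⟨G', hfree, hfact⟩ := hG' T' (by
    calc C * T'.card ≤ C * (2 * ℓ) := Nat.mul_le_mul_left C hT'card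
      _ ≤ (2 * C + 1) * ℓ := by nlinarith
      _ ≤ k ^ 2 := hcon.le)
  have hword : ρ.word G = ρ.word G' := by
    funext i
    have h1 : (Sum.inr (i, ρ.word G i) : κ) ∈ T' := by
      rw [hT'def]
      exact Finset.mem_union_right _ (Finset.mem_image.2 ⟨i, Finset.mem_univ i, rfl⟩)
    have h2 := hfact _ h1
    exact ((show (ρ.word G i = ρ.word G i ↔ ρ.word G' i = ρ.word G i) from h2).1 rfl).symm
  have hsent : ρ.sent G = ρ.sent G' := ρ.sent_of_word _ _ hword
  have hsat' : Sat ρ.relational (ρ.univ G') (ρ.rel G') (ρ.sent G) default := by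
    refine hT' (ρ.univ G') (ρ.rel G') default (fun i => i.elim0) ?_
    intro g hg
    have h1 : (Sum.inl (certOf ρ g) : κ) ∈ T' := by
      rw [hT'def]
      exact Finset.mem_union_left _ (Finset.mem_image.2
        ⟨certOf ρ g, hg (Finset.mem_singleton_self _), rfl⟩)
    have h2 := hfact _ h1
    match g with
    | Sum.inl ⟨a, R, t⟩ => exact h2
    | Sum.inr x => exact h2
  rw [hsent] at hsat'
  exact (ρ.correct G').2 hsat' hfree

/-- From a real exponent to the natural form. -/
theorem exponent {n q e : ℕ} {η : ℝ} (he : 1 ≤ e) (hη : 1 / (e : ℝ) ≤ η) (hn : 1 ≤ n)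
    (hq : (q : ℝ) ≤ (n : ℝ) ^ (2 - η)) : q ^ e * n ≤ n ^ (2 * e) := by
  have hn' : (1:ℝ) ≤ n := by exact_mod_cast hn
  have hn0 : (0:ℝ) < n := by linarith
  have he' : (0:ℝ) < e := by exact_mod_cast he
  have h1 : (q : ℝ) ^ e * n ≤ (n : ℝ) ^ (2 * e) := by
    calc (q : ℝ) ^ e * n ≤ ((n : ℝ) ^ (2 - η)) ^ e * n := by gcongr
      _ = (n : ℝ) ^ ((2 - η) * e + 1) := by
          rw [← Real.rpow_natCast ((n : ℝ) ^ (2 - η)) e, ← Real.rpow_mul hn0.le,
            Real.rpow_add hn0, Real.rpow_one]
      _ ≤ (n : ℝ) ^ ((2 * e : ℕ) : ℝ) := by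
          refine Real.rpow_le_rpow_of_exponent_le hn' ?_
          have h2 : 1 ≤ η * e := by
            rw [div_le_iff₀ he'] at hη
            exact hη
          push_cast
          nlinarith
      _ = (n : ℝ) ^ (2 * e) := Real.rpow_natCast _ _
  exact_mod_cast h1

/-- **Theorem.** Fix `r`, `c` and `η > 0`. There are `ε > 0` and `K₀` such that for all `n` and `k`
with `K₀ ≤ k ≤ c * log n`, every reduction from the `k`-clique problem on graphs with `n` vertices
to model checking of `Σ₁`-sentences over vocabularies of arity at most `r`, all of whose output bits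
read at most `n^(2-η)` pairs of vertices, needs sentences (or encodings of the sentences) of length
at least `ε * k^2`. -/
theorem result (r c : ℕ) (η : ℝ) (hη : 0 < η) : ∃ ε : ℝ, 0 < ε ∧ ∃ K₀ : ℕ, ∀ n k : ℕ,
    K₀ ≤ k → k ≤ c * Nat.log 2 n → ∀ q M ℓ : ℕ, (q : ℝ) ≤ (n : ℝ) ^ (2 - η) → M ≤ n ^ c →
    Nonempty (LocalReduction n k r q M ℓ) → ε * (k : ℝ) ^ 2 ≤ ℓ := by
  obtain ⟨e, he⟩ := exists_nat_one_div_lt hη
  obtain ⟨s, K₀, h⟩ := main r c (e + 1) (Nat.le_add_left 1 e)
  refine ⟨1 / ((s : ℝ) + 1), by positivity, K₀ + 1, ?_⟩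
  intro n k hk hkL q M ℓ hq hM hρ
  have hn : 1 ≤ n := by
    by_contra hcon
    have h0 : n = 0 := by omega
    rw [h0, Nat.log_zero_right] at hkL
    omega
  have h1 := h n k (by omega) hkL q M ℓ (exponent (Nat.le_add_left 1 e) (by
    push_cast
    exact he.le) hn hq) hM hρ
  have h2 : (k : ℝ) ^ 2 ≤ s * ℓ := by exact_mod_cast h1
  have h3 : (0:ℝ) ≤ ℓ := Nat.cast_nonneg ℓ
  have h4 : (0:ℝ) ≤ s := Nat.cast_nonneg s
  rw [one_div, inv_mul_le_iff₀ (by positivity)]
  nlinarith

/-- There is no ept-reduction from `p-CLIQUE` to `p-MC(Σ₁)` over vocabularies of bounded arity all of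
whose output bits read at most `n^(2-η)` pairs: its sentences would have length `O(k + log n)`. -/
theorem no_ept_reduction (r : ℕ) (η : ℝ) (hη : 0 < η) : ¬ ∃ c : ℕ, ∀ n k : ℕ, Nonempty
    (LocalReduction n k r ⌊(n : ℝ) ^ (2 - η)⌋₊ (2 ^ (c * (k + Nat.log 2 n + 1)))
      (c * (k + Nat.log 2 n + 1))) := by
  rintro ⟨c, h⟩
  obtain ⟨ε, hε, K₀, hmain⟩ := result r (3 * c + 1) η hη
  obtain ⟨s, hs⟩ := exists_nat_gt (1 / ε)
  -- k = log n
  set k := K₀ + 3 * s * c + 1 with hk
  have hlog : Nat.log 2 (2 ^ k) = k := Nat.log_pow (by norm_num) k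
  have h1 := hmain (2 ^ k) k (by omega) (by rw [hlog]; nlinarith)
    ⌊((2 ^ k : ℕ) : ℝ) ^ (2 - η)⌋₊
    (2 ^ (c * (k + Nat.log 2 (2 ^ k) + 1))) (c * (k + Nat.log 2 (2 ^ k) + 1))
    (Nat.floor_le (by positivity)) ?_ (h _ _)
  · rw [hlog] at h1
    have h2 : k ^ 2 ≤ s * (c * (k + k + 1)) := by
      have h3 : (k : ℝ) ^ 2 ≤ s * ((c * (k + k + 1) : ℕ) : ℝ) := by
        have h4 : 1 < s * ε := by
          rw [div_lt_iff₀ hε] at hs
          exact hs
        have h5 : (0:ℝ) ≤ s := Nat.cast_nonneg s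
        have h6 : (0:ℝ) ≤ (k : ℝ) ^ 2 := by positivity
        calc (k : ℝ) ^ 2 ≤ (s * ε) * (k : ℝ) ^ 2 := by nlinarith
          _ = s * (ε * (k : ℝ) ^ 2) := by ring
          _ ≤ s * ((c * (k + k + 1) : ℕ) : ℝ) := mul_le_mul_of_nonneg_left h1 h5
      exact_mod_cast h3
    have h3 : s * (c * (k + k + 1)) ≤ 3 * s * c * k := by
      have : k + k + 1 ≤ 3 * k := by omega
      calc s * (c * (k + k + 1)) ≤ s * (c * (3 * k)) := by gcongr
        _ = 3 * s * c * k := by ring
    have h4 : k * k ≤ 3 * s * c * k := by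
      calc k * k = k ^ 2 := by ring
        _ ≤ _ := h2
        _ ≤ _ := h3
    have h5 : k ≤ 3 * s * c := Nat.le_of_mul_le_mul_right h4 (by omega)
    omega
  · rw [hlog, ← pow_mul]
    refine Nat.pow_le_pow_right (by norm_num) ?_
    have h5 : k + k + 1 ≤ 3 * k := by omega
    calc c * (k + k + 1) ≤ c * (3 * k) := Nat.mul_le_mul_left c h5
      _ ≤ c * (3 * k) + k := Nat.le_add_right _ _
      _ = k * (3 * c + 1) := by ring

end Pool.Agent.Results.MP_2b48c2_lc.LocalReductions
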